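import Pool.Agent.J4H92.TP.Nec

/-!
# Necessity of the condition on the sets `J`
-/

set_option autoImplicit false

namespace Pool.Agent.J4H92.TP

open SimpleGraph Module Pool.Agent.H283R2.DR Pool.Agent.H283R2.DR.TA Pool.Agent.J4H92.CP
  Pool.Agent.H789R5 Pool.Agent.J4H92.NC

theorem mot_zero {V : Type} [Fintype V] {p : V → Fin 3 → ℝ} (hp : MG p) {m : V → Fin 3 → ℝ}
    (hm : m ∈ Mot (⊤ : SimpleGraph V) p) {a b c : V} (hab : a ≠ b) (hac : a ≠ c) (hbc : b ≠ c)
    (ha : m a = 0) (hb : m b = 0) (hc : m c = 0) : m = 0 := by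
  classical
  funext z
  by_cases hza : z = a
  · rw [hza, ha]; rfl
  by_cases hzb : z = b
  · rw [hzb, hb]; rfl
  by_cases hzc : z = c
  · rw [hzc, hc]; rfl
  have hinj : Function.Injective ![z, a, b, c] := by
    intro i j hij
    fin_cases i <;> fin_cases j <;> first | rfl | (exfalso; revert hij; simp; tauto)
  have h1 := hp.toGen.pos 4 ![z, a, b, c] (by norm_num) hinj
  rw [affineIndependent_iff_linearIndependent_vsub ℝ _ (0 : Fin 4)] at h1
  have : Nonempty {x : Fin 4 // x ≠ 0} := ⟨⟨1, by decide⟩⟩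
  have h2 := h1.span_eq_top_of_card_eq_finrank (by simp)
  rw [mem_mot] at hm
  have h3 : ∀ y, y ≠ z → m y = 0 → (p y - p z) ⬝ᵥ m z = 0 := by
    intro y hy h0
    have h4 := hm y z hy
    rw [h0, zero_sub, dotProduct_neg, neg_eq_zero] at h4
    exact h4
  have h4 : ∀ w ∈ Submodule.span ℝ (Set.range fun i : {x : Fin 4 // x ≠ 0} =>
      (p (![z, a, b, c] i) -ᵥ p (![z, a, b, c] 0))), w ⬝ᵥ m z = 0 := by
    intro w hw
    induction hw using Submodule.span_induction with
    | mem x hx =>
      obtain ⟨⟨i, hi⟩, rfl⟩ := hx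
      show (p (![z, a, b, c] i) - p z) ⬝ᵥ m z = 0
      fin_cases i
      · exact absurd rfl hi
      · exact h3 a (Ne.symm hza) ha
      · exact h3 b (Ne.symm hzb) hb
      · exact h3 c (Ne.symm hzc) hc
    | zero => simp
    | add x y _ _ hx hy => rw [add_dotProduct, hx, hy, add_zero]
    | smul t x _ hx => rw [smul_dotProduct, hx, smul_zero]
  have h5 : m z ⬝ᵥ m z = 0 := h4 _ (h2 ▸ Submodule.mem_top)
  exact dotProduct_self_eq_zero.1 h5

theorem mot_eq_top {V : Type} [Fintype V] {p : V → Fin 3 → ℝ} (hp : MG p)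
    {Γ : SimpleGraph V} (hcard : 3 ≤ Fintype.card V) (hr : GenRigid 3 Γ) :
    Mot (⊤ : SimpleGraph V) p = Mot Γ p := by
  classical
  have h1 := (genRigid_iff hp hcard _).1 hr
  norm_num at h1
  have h6 := Pool.Agent.TH349.Rig.six_le hp hcard (⊤ : SimpleGraph V)
  have hle : Mot (⊤ : SimpleGraph V) p ≤ Mot Γ p := by
    intro m hm
    rw [mem_mot] at hm ⊢
    intro z z' hz
    exact hm z z' hz.ne
  refine Submodule.eq_of_le_of_finrank_le hle ?_
  have e1 : finrank ℝ (Mot Γ p) = mo Γ p := rfl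
  have e2 : finrank ℝ (Mot (⊤ : SimpleGraph V) p) = mo (⊤ : SimpleGraph V) p := rfl
  omega

/-- the edges that meet the columns over `J` -/
def EJ {U W : Type} (G : SimpleGraph U) (H : SimpleGraph W) (J : Set W) : Set (Sym2 (U × W)) :=
  {e ∈ (G □ H).edgeSet | ∃ z ∈ e, z.2 ∈ J}

theorem ej_le {U W : Type} [Fintype U] [Fintype W] (G : SimpleGraph U) (H : SimpleGraph W)
    (J : Set W) : (EJ G H J).ncard ≤
      Fintype.card U * {e ∈ H.edgeSet | ∃ x ∈ J, x ∈ e}.ncard + G.edgeSet.ncard * J.ncard := by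
  classical
  have h1 : EJ G H J ⊆
      ((fun q : U × Sym2 W => q.2.map (fun x => (q.1, x))) ''
        ((Set.univ : Set U) ×ˢ {e ∈ H.edgeSet | ∃ x ∈ J, x ∈ e})) ∪
      ((fun q : Sym2 U × W => q.1.map (fun u => (u, q.2))) '' (G.edgeSet ×ˢ J)) := by
    rintro e ⟨he, z, hz, hzJ⟩
    induction e using Sym2.ind with | _ a b => ?_
    obtain ⟨a1, a2⟩ := a
    obtain ⟨b1, b2⟩ := b
    rw [mem_edgeSet] at he
    rcases he with ⟨h, h'⟩ | ⟨h, h'⟩
    · have h : G.Adj a1 b1 := h
      have h' : a2 = b2 := h'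
      subst h'
      right
      refine ⟨(s(a1, b1), a2), ⟨h, ?_⟩, rfl⟩
      rcases Sym2.mem_iff.1 hz with rfl | rfl
      · exact hzJ
      · exact hzJ
    · have h : H.Adj a2 b2 := h
      have h' : a1 = b1 := h'
      subst h'
      left
      refine ⟨(a1, s(a2, b2)), ⟨Set.mem_univ _, h, ?_⟩, rfl⟩
      rcases Sym2.mem_iff.1 hz with rfl | rfl
      · exact ⟨a2, hzJ, Sym2.mem_mk_left _ _⟩
      · exact ⟨b2, hzJ, Sym2.mem_mk_right _ _⟩
  refine (Set.ncard_le_ncard h1 (Set.toFinite _)).trans ((Set.ncard_union_le _ _).trans ?_)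
  refine Nat.add_le_add ?_ ?_
  · refine (Set.ncard_image_le (Set.toFinite _)).trans ?_
    rw [Set.ncard_prod, Set.ncard_univ, Nat.card_eq_fintype_card]
  · refine (Set.ncard_image_le (Set.toFinite _)).trans ?_
    rw [Set.ncard_prod]

theorem t_NC : S_NC := by
  intro U W _ _ G H hG hU hr J hJ hJ2
  classical
  obtain ⟨p, hp⟩ := exists_mg (U × W) 3
  have hcard : 3 ≤ Fintype.card (U × W) := by
    rw [Fintype.card_prod]
    have := (Set.ncard_pos (Set.toFinite J)).2 hJ
    nlinarith
  have htop := mot_eq_top hp hcard hr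
  -- three points outside
  have hI : 2 ≤ (Jᶜ : Set W).ncard := by
    have h5 := Set.ncard_add_ncard_compl J
    rw [Nat.card_eq_fintype_card] at h5
    omega
  obtain ⟨x1, hx1, x2, hx2, hx12⟩ := (Set.one_lt_ncard (Set.toFinite _)).1 hI
  have hnt : Nontrivial U := Fintype.one_lt_card_iff_nontrivial.1 (by omega)
  obtain ⟨u1, u2, hu12⟩ := exists_pair_ne U
  let ext : ({z : U × W // z.2 ∈ J} → Fin 3 → ℝ) → (U × W → Fin 3 → ℝ) :=
    fun q z => if h : z.2 ∈ J then q ⟨z, h⟩ else 0
  have ext0 : ∀ q z, z.2 ∉ J → ext q z = 0 := fun q z hz => dif_neg hz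
  have ext1 : ∀ q (z : {z : U × W // z.2 ∈ J}), ext q z.1 = q z := fun q z => dif_pos z.2
  let Φ : ({z : U × W // z.2 ∈ J} → Fin 3 → ℝ) →ₗ[ℝ] (EJ G H J → ℝ) :=
    { toFun := fun q e => (p (Quot.out e.1).1 - p (Quot.out e.1).2) ⬝ᵥ
        (ext q (Quot.out e.1).1 - ext q (Quot.out e.1).2)
      map_add' := by
        intro q q'
        have h : ∀ z, ext (q + q') z = ext q z + ext q' z := by
          intro z
          by_cases hz : z.2 ∈ J
          · simp [ext, hz]
          · simp [ext, hz]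
        funext e
        show (p (Quot.out e.1).1 - p (Quot.out e.1).2) ⬝ᵥ
          (ext (q + q') (Quot.out e.1).1 - ext (q + q') (Quot.out e.1).2) =
          (p (Quot.out e.1).1 - p (Quot.out e.1).2) ⬝ᵥ
            (ext q (Quot.out e.1).1 - ext q (Quot.out e.1).2) +
          (p (Quot.out e.1).1 - p (Quot.out e.1).2) ⬝ᵥ
            (ext q' (Quot.out e.1).1 - ext q' (Quot.out e.1).2)
        rw [h, h, ← dotProduct_add]
        congr 1
        abel
      map_smul' := by
        intro c q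
        have h : ∀ z, ext (c • q) z = c • ext q z := by
          intro z
          by_cases hz : z.2 ∈ J
          · simp [ext, hz]
          · simp [ext, hz]
        funext e
        show (p (Quot.out e.1).1 - p (Quot.out e.1).2) ⬝ᵥ
          (ext (c • q) (Quot.out e.1).1 - ext (c • q) (Quot.out e.1).2) =
          c • ((p (Quot.out e.1).1 - p (Quot.out e.1).2) ⬝ᵥ
            (ext q (Quot.out e.1).1 - ext q (Quot.out e.1).2))
        rw [h, h, ← smul_sub, dotProduct_smul] }
  have hinj : Function.Injective Φ := by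
    rw [injective_iff_map_eq_zero]
    intro q hq
    have hmem : ext q ∈ Mot (G □ H) p := by
      rw [mem_mot]
      intro a b hab
      by_cases hJab : a.2 ∈ J ∨ b.2 ∈ J
      · have he : s(a, b) ∈ EJ G H J := by
          refine ⟨hab, ?_⟩
          rcases hJab with h | h
          · exact ⟨a, Sym2.mem_mk_left _ _, h⟩
          · exact ⟨b, Sym2.mem_mk_right _ _, h⟩
        have h5 : (p (Quot.out (s(a, b))).1 - p (Quot.out (s(a, b))).2) ⬝ᵥ
          (ext q (Quot.out (s(a, b))).1 - ext q (Quot.out (s(a, b))).2) = 0 :=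
          congrFun hq ⟨s(a, b), he⟩
        have h6 : s((Quot.out (s(a, b))).1, (Quot.out (s(a, b))).2) = s(a, b) :=
          Quot.out_eq (s(a, b))
        rcases Sym2.eq_iff.1 h6 with ⟨e1, e2⟩ | ⟨e1, e2⟩
        · rw [e1, e2] at h5
          exact h5
        · rw [e1, e2] at h5
          have e3 : p a - p b = -(p b - p a) := by abel
          have e4 : ext q a - ext q b = -(ext q b - ext q a) := by abel
          rw [e3, e4, neg_dotProduct_neg]
          exact h5
      · push Not at hJab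
        rw [ext0 q a hJab.1, ext0 q b hJab.2, sub_self, dotProduct_zero]
    rw [← htop] at hmem
    have h0 := mot_zero hp hmem (a := (u1, x1)) (b := (u1, x2)) (c := (u2, x1))
      (fun h => hx12 (congrArg Prod.snd h)) (fun h => hu12 (congrArg Prod.fst h))
      (fun h => hu12 (congrArg Prod.fst h)) (ext0 q _ hx1) (ext0 q _ hx2) (ext0 q _ hx1)
    funext z
    rw [← ext1 q z, h0]
    rfl
  have hfin : Fintype (EJ G H J) := Fintype.ofFinite _
  have h7 := LinearMap.finrank_le_finrank_of_injective hinj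
  rw [Module.finrank_fintype_fun_eq_card, Module.finrank_pi_fintype] at h7
  simp only [Module.finrank_fintype_fun_eq_card, Fintype.card_fin, Finset.sum_const,
    Finset.card_univ, smul_eq_mul] at h7
  have h8 : Fintype.card {z : U × W // z.2 ∈ J} = Fintype.card U * J.ncard := by
    have e1 : {z : U × W // z.2 ∈ J} ≃ U × J :=
      { toFun := fun z => (z.1.1, ⟨z.1.2, z.2⟩)
        invFun := fun z => ⟨(z.1, z.2.1), z.2.2⟩
        left_inv := fun _ => rfl
        right_inv := fun _ => rfl }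
    rw [Fintype.card_congr e1, Fintype.card_prod, ← Nat.card_coe_set_eq,
      Nat.card_eq_fintype_card]
  have h9 : Fintype.card (EJ G H J) = (EJ G H J).ncard := by
    rw [← Nat.card_coe_set_eq, Nat.card_eq_fintype_card]
  rw [h8, h9] at h7
  have h10 := ej_le G H J
  have he : G.edgeSet.ncard + 1 = Fintype.card U := by
    rw [Set.ncard_eq_toFinset_card']
    exact hG.card_edgeFinset
  have hJp := (Set.ncard_pos (Set.toFinite J)).2 hJ
  by_contra hcon
  push Not at hcon
  obtain ⟨n, hn⟩ : ∃ n, Fintype.card U = n + 1 := ⟨Fintype.card U - 1, by omega⟩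
  have hn' : G.edgeSet.ncard = n := by omega
  have h11 : {e ∈ H.edgeSet | ∃ x ∈ J, x ∈ e}.ncard ≤ 2 * J.ncard := by omega
  rw [hn'] at h10
  rw [hn] at h7 h10
  nlinarith

end Pool.Agent.J4H92.TP
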