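import Pool.Agent.J4H92.TP.Main
import Pool.Agent.J4H92.TP.Nc

/-!
# Products of trees with arbitrary graphs
-/

set_option autoImplicit false

namespace Pool.Agent.J4H92.TP

open SimpleGraph Module Pool.Agent.H283R2.DR Pool.Agent.H283R2.DR.TA Pool.Agent.J4H92.CP
  Pool.Agent.H789R5 Pool.Agent.J4H92.NC

variable {U W : Type}

/-- For each nonempty set `J` of at most `h - 2` vertices there is a placement such that the motions
that vanish outside `J` form a space of dimension less than `|J|`. -/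
def Pinned [Fintype W] (H : SimpleGraph W) : Prop :=
  ∀ J : Set W, J.Nonempty → J.ncard + 2 ≤ Fintype.card W →
    ∃ p : W → Fin 3 → ℝ, finrank ℝ (Zs H p J) < J.ncard

/-- the placement -/
theorem exists_pl' [Fintype W] {H : SimpleGraph W} (hSQ : Mu 0 6 (Sq H))
    (h3 : 3 ≤ Fintype.card W) (hD : Pinned H) (hr : 2 * Fintype.card W + 1 ≤ genRank 3 H) :
    ∃ p : W → Fin 3 → ℝ, finrank ℝ (Zs H p Set.univ) ≤ 3 * Fintype.card W - genRank 3 H ∧
      (∀ J : Set W, J.Nonempty → finrank ℝ (Zs H p J) + 1 ≤ J.ncard) ∧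
      finrank ℝ (Sol (Sq H) (df p) (0 : W → Fin 0 → Fin 3 → ℝ)) ≤ 6 := by
  classical
  obtain ⟨p0, hp0⟩ := exists_mg W 3
  have hr0 := genRank_add hp0 H
  have hmo : finrank ℝ (Zs H p0 Set.univ) = mo H p0 := by
    rw [zs_univ_eq]
    rfl
  let P : Option (Option (Set W)) → (W → Fin 3 → ℝ) → Prop := fun o p => match o with
    | none => finrank ℝ (Sol (Sq H) (df p) (0 : W → Fin 0 → Fin 3 → ℝ)) ≤ 6
    | some none => finrank ℝ (Zs H p Set.univ) ≤ 3 * Fintype.card W - genRank 3 H
    | some (some J) => finrank ℝ (Zs H p J) ≤ J.ncard - 1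
  obtain ⟨p, hp⟩ := good_family P (by
    rintro (_ | _ | J)
    · exact good_sol (Sq H) (Lp (fun v : W => v)) 6
    · exact good_Zs H _ _
    · exact good_Zs H _ _) (by
    rintro (_ | _ | J)
    · obtain ⟨p, d, h⟩ := hSQ
      have hd : d = 0 := Subsingleton.elim _ _
      rw [hd] at h
      exact ⟨p, h⟩
    · refine ⟨p0, ?_⟩
      show finrank ℝ (Zs H p0 Set.univ) ≤ 3 * Fintype.card W - genRank 3 H
      omega
    · by_cases hJ0 : J = ∅
      · subst hJ0
        refine ⟨p0, ?_⟩
        show finrank ℝ (Zs H p0 ∅) ≤ (∅ : Set W).ncard - 1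
        have hbot : Zs H p0 ∅ = ⊥ := by
          rw [eq_bot_iff]
          intro m hm
          rw [Submodule.mem_bot]
          funext x
          exact hm.2 x (Set.notMem_empty x)
        rw [hbot, finrank_bot]
        exact Nat.zero_le _
      have hJn : J.Nonempty := Set.nonempty_iff_ne_empty.2 hJ0
      by_cases hJ2 : J.ncard + 2 ≤ Fintype.card W
      · obtain ⟨p, hp⟩ := hD J hJn hJ2
        refine ⟨p, ?_⟩
        show finrank ℝ (Zs H p J) ≤ J.ncard - 1
        omega
      · refine ⟨p0, ?_⟩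
        show finrank ℝ (Zs H p0 J) ≤ J.ncard - 1
        by_cases hJu : J = Set.univ
        · rw [hJu, Set.ncard_univ, Nat.card_eq_fintype_card]
          omega
        · obtain ⟨x, hx⟩ := (Set.ne_univ_iff_exists_notMem _).1 hJu
          have hlt : Zs H p0 J < Zs H p0 Set.univ := by
            refine lt_of_le_of_ne (fun m hm => ⟨hm.1, fun x hx => absurd (Set.mem_univ x) hx⟩) ?_
            intro he
            have h5 : (fun _ => Pi.single 0 1 : W → Fin 3 → ℝ) ∈ Zs H p0 Set.univ :=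
              ⟨fun u v _ => by simp, fun x hx => absurd (Set.mem_univ x) hx⟩
            rw [← he] at h5
            have h6 := h5.2 x hx
            have h7 := congrFun h6 0
            simp at h7
          have h8 := Submodule.finrank_lt_finrank_of_lt hlt
          omega)
  refine ⟨p, hp (some none), fun J hJ => ?_, hp none⟩
  have h5 : finrank ℝ (Zs H p J) ≤ J.ncard - 1 := hp (some (some J))
  have h6 := (Set.ncard_pos (Set.toFinite J)).2 hJ
  omega

/-- **Sufficiency.** -/
theorem suff' (hRA : S_RA) (hGD : S_GD) [Fintype U] [Fintype W]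
    {G : SimpleGraph U} {H : SimpleGraph W} (hG : G.IsTree) (hSQ : Mu 0 6 (Sq H))
    (h3 : 3 ≤ Fintype.card W) (hD : Pinned H) (hr : 2 * Fintype.card W + 1 ≤ genRank 3 H) :
    Mu 0 (max 6 (3 * Fintype.card W - genRank 3 H + 1 - Fintype.card U)) (G □ H) := by
  classical
  obtain ⟨p, h1, h2, h4⟩ := exists_pl' hSQ h3 hD hr
  obtain ⟨e, he⟩ := hRA W (Zs H p Set.univ) (fun J hJ => by
    have h5 : (Zs H p Set.univ ⊓ Vn J : Submodule ℝ (W → Fin 3 → ℝ)) = Zs H p J := by
      ext m
      exact ⟨fun h => ⟨h.1.1, h.2⟩, fun h => ⟨⟨h.1, fun x hx => absurd (Set.mem_univ x) hx⟩, h.2⟩⟩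
    rw [h5]
    exact h2 J hJ)
  obtain ⟨i0⟩ : Nonempty W := Fintype.card_pos_iff.1 (by omega)
  refine t_TR U W G H p _ (Sol (Sq H) (df p) (0 : W → Fin 0 → Fin 3 → ℝ)) hG h4 h1
    ⟨e, fun z hz hz0 => he i0 z hz fun j _ => hz0 j⟩ fun x hx hxT => ?_
  refine hGD W H p e x he hx ?_
  by_contra hno
  push Not at hno
  refine hxT ⟨fun u v huv => ?_, fun v i => i.elim0⟩
  rcases huv with ⟨-, h5 | ⟨w, h5, h6⟩⟩
  · exact hx.1 u v h5
  · exact hno w u v h5 h6

/-- **Necessity of the condition on the sets `J`.** -/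
theorem nec_pinned [Fintype U] [Fintype W] {G : SimpleGraph U} {H : SimpleGraph W}
    (hG : G.IsTree) (hU : 2 ≤ Fintype.card U) (hr : GenRigid 3 (G □ H)) : Pinned H := by
  intro J hJ hJ2
  classical
  obtain ⟨p, hp⟩ := exists_mg (U × W) 3
  have hcard : 3 ≤ Fintype.card (U × W) := by
    rw [Fintype.card_prod]
    have := (Set.ncard_pos (Set.toFinite J)).2 hJ
    nlinarith
  have htop := mot_eq_top hp hcard hr
  have hI : 2 ≤ (Jᶜ : Set W).ncard := by
    have h5 := Set.ncard_add_ncard_compl J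
    rw [Nat.card_eq_fintype_card] at h5
    omega
  obtain ⟨x1, hx1, x2, hx2, hx12⟩ := (Set.one_lt_ncard (Set.toFinite _)).1 hI
  have hnt : Nontrivial U := Fintype.one_lt_card_iff_nontrivial.1 (by omega)
  obtain ⟨u1, u2, hu12⟩ := exists_pair_ne U
  by_contra hcon
  push Not at hcon
  -- the columns over `J`
  let q : U → W → Fin 3 → ℝ := fun u x => p (u, x)
  let Φ : (∀ u : U, Zs H (q u) J) →ₗ[ℝ] ((G.edgeSet × J) → ℝ) :=
    { toFun := fun m e => (p ((Quot.out e.1.1).1, e.2.1) - p ((Quot.out e.1.1).2, e.2.1)) ⬝ᵥ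
        ((m (Quot.out e.1.1).1).1 e.2.1 - (m (Quot.out e.1.1).2).1 e.2.1)
      map_add' := by
        intro m m'
        funext e
        show (p ((Quot.out e.1.1).1, e.2.1) - p ((Quot.out e.1.1).2, e.2.1)) ⬝ᵥ
          (((m (Quot.out e.1.1).1).1 e.2.1 + (m' (Quot.out e.1.1).1).1 e.2.1) -
            ((m (Quot.out e.1.1).2).1 e.2.1 + (m' (Quot.out e.1.1).2).1 e.2.1)) =
          (p ((Quot.out e.1.1).1, e.2.1) - p ((Quot.out e.1.1).2, e.2.1)) ⬝ᵥ
            ((m (Quot.out e.1.1).1).1 e.2.1 - (m (Quot.out e.1.1).2).1 e.2.1) +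
          (p ((Quot.out e.1.1).1, e.2.1) - p ((Quot.out e.1.1).2, e.2.1)) ⬝ᵥ
            ((m' (Quot.out e.1.1).1).1 e.2.1 - (m' (Quot.out e.1.1).2).1 e.2.1)
        rw [← dotProduct_add]
        congr 1
        abel
      map_smul' := by
        intro c m
        funext e
        show (p ((Quot.out e.1.1).1, e.2.1) - p ((Quot.out e.1.1).2, e.2.1)) ⬝ᵥ
          (c • (m (Quot.out e.1.1).1).1 e.2.1 - c • (m (Quot.out e.1.1).2).1 e.2.1) =
          c • ((p ((Quot.out e.1.1).1, e.2.1) - p ((Quot.out e.1.1).2, e.2.1)) ⬝ᵥ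
            ((m (Quot.out e.1.1).1).1 e.2.1 - (m (Quot.out e.1.1).2).1 e.2.1))
        rw [← smul_sub, dotProduct_smul] }
  have hinj : Function.Injective Φ := by
    rw [injective_iff_map_eq_zero]
    intro m hm
    set M : U × W → Fin 3 → ℝ := fun z => (m z.1).1 z.2 with hM
    have hM0 : ∀ u x, x ∉ J → M (u, x) = 0 := fun u x hx => (m u).2.2 x hx
    have hmem : M ∈ Mot (G □ H) p := by
      rw [mem_mot]
      rintro ⟨a, x⟩ ⟨b, y⟩ hab
      rcases hab with ⟨h, h'⟩ | ⟨h, h'⟩
      · have h : G.Adj a b := h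
        have h' : x = y := h'
        subst h'
        by_cases hx : x ∈ J
        · have h5 : (p ((Quot.out (s(a, b))).1, x) - p ((Quot.out (s(a, b))).2, x)) ⬝ᵥ
            ((m (Quot.out (s(a, b))).1).1 x - (m (Quot.out (s(a, b))).2).1 x) = 0 :=
            congrFun hm (⟨s(a, b), h⟩, ⟨x, hx⟩)
          have h6 : s((Quot.out (s(a, b))).1, (Quot.out (s(a, b))).2) = s(a, b) :=
            Quot.out_eq (s(a, b))
          show (p (a, x) - p (b, x)) ⬝ᵥ ((m a).1 x - (m b).1 x) = 0
          rcases Sym2.eq_iff.1 h6 with ⟨e1, e2⟩ | ⟨e1, e2⟩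
          · rw [e1, e2] at h5
            exact h5
          · rw [e1, e2] at h5
            have e3 : p (a, x) - p (b, x) = -(p (b, x) - p (a, x)) := by abel
            have e4 : (m a).1 x - (m b).1 x = -((m b).1 x - (m a).1 x) := by abel
            rw [e3, e4, neg_dotProduct_neg]
            exact h5
        · rw [hM0 a x hx, hM0 b x hx, sub_self, dotProduct_zero]
      · have h : H.Adj x y := h
        have h' : a = b := h'
        subst h'
        exact (m a).2.1 x y h
    rw [← htop] at hmem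
    have h0 := mot_zero hp hmem (a := (u1, x1)) (b := (u1, x2)) (c := (u2, x1))
      (fun h => hx12 (congrArg Prod.snd h)) (fun h => hu12 (congrArg Prod.fst h))
      (fun h => hu12 (congrArg Prod.fst h)) (hM0 _ _ hx1) (hM0 _ _ hx2) (hM0 _ _ hx1)
    funext u
    refine Subtype.ext ?_
    funext x
    exact congrFun h0 (u, x)
  have hfE : Fintype G.edgeSet := Fintype.ofFinite _
  have hfJ : Fintype J := Fintype.ofFinite _
  have h7 := LinearMap.finrank_le_finrank_of_injective hinj
  rw [Module.finrank_fintype_fun_eq_card, Module.finrank_pi_fintype, Fintype.card_prod] at h7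
  have h8 := Finset.sum_le_sum (s := Finset.univ) (fun (u : U) _ => hcon (q u))
  rw [Finset.sum_const, Finset.card_univ, smul_eq_mul] at h8
  have h9 : Fintype.card J = J.ncard := by
    rw [← Nat.card_coe_set_eq, Nat.card_eq_fintype_card]
  have h10 : Fintype.card G.edgeSet = G.edgeSet.ncard := by
    rw [← Nat.card_coe_set_eq, Nat.card_eq_fintype_card]
  rw [h9, h10] at h7
  have he : G.edgeSet.ncard + 1 = Fintype.card U := by
    rw [← h10]
    have := hG.card_edgeFinset
    rw [← this, SimpleGraph.edgeFinset, Set.toFinset_card]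
  have hJp := (Set.ncard_pos (Set.toFinite J)).2 hJ
  obtain ⟨n, hn⟩ : ∃ n, Fintype.card U = n + 1 := ⟨Fintype.card U - 1, by omega⟩
  have hn' : G.edgeSet.ncard = n := by omega
  rw [hn'] at h7
  rw [hn] at h8
  nlinarith

/-- **The criterion for trees.** -/
theorem crit_tree (hRA : S_RA) (hGD : S_GD) [Fintype U] [Fintype W] {G : SimpleGraph U}
    {H : SimpleGraph W} (hG : G.IsTree) (hSQ : GenRigid 3 (Sq H)) (h7 : 7 ≤ Fintype.card W)
    (hU : 2 ≤ Fintype.card U) (hm : 3 * Fintype.card W ≤ genRank 3 H + Fintype.card U + 5) :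
    GenRigid 3 (G □ H) ↔ 2 * Fintype.card W + 1 ≤ genRank 3 H ∧ Pinned H := by
  have hS : Mu 0 6 (Sq H) := by
    obtain ⟨p, hp⟩ := exists_mg W 3
    have h1 := (genRigid_iff hp (by omega) _).1 hSQ
    norm_num at h1
    have h2 := genRank_add hp (Sq H)
    exact mu_of_rank (by omega)
  constructor
  · intro h
    exact ⟨nec_rank hG h h7, nec_pinned hG hU h⟩
  · rintro ⟨hr, hD⟩
    have h1 := suff' hRA hGD (G := G) hG hS (by omega) hD hr
    rw [max_eq_left (by omega)] at h1
    exact rigid_of_mu h1 (by omega) (by omega)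

end Pool.Agent.J4H92.TP
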