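import Pool.Agent.J4H92.TP.Nec
import Pool.Agent.J4H92.NC.Base

/-!
# Products of large graphs with a plane-rigid graph
-/

set_option autoImplicit false

namespace Pool.Agent.J4H92.TP

open SimpleGraph Module Pool.Agent.H283R2.DR Pool.Agent.H283R2.DR.TA Pool.Agent.J4H92.CP
  Pool.Agent.H789R5 Pool.Agent.J4H92.NC

variable {U W : Type}

/-- all graphs -/
theorem crit_all (hSQ : S_SQ) (hZJ : S_ZJ) (hRA : S_RA) (hGD : S_GD) (hNC : S_NC) [Fintype U]
    [Fintype W] {G : SimpleGraph U} {H : SimpleGraph W} (hH : GenRigid 2 H)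
    (h7 : 7 ≤ Fintype.card W) (hU : 2 ≤ Fintype.card U)
    (hr : 2 * Fintype.card W ≤ genRank 3 H ∨ G.IsAcyclic)
    (hm : 3 * Fintype.card W ≤ genRank 3 H + Fintype.card U + 5) :
    GenRigid 3 (G □ H) ↔ G.Connected ∧ (G.IsAcyclic →
      2 * Fintype.card W + 1 ≤ genRank 3 H ∧ Dense H) := by
  constructor
  · intro h
    have hc := conn_of_rigid (by omega) (by omega) h
    exact ⟨hc, fun ha => (crit hSQ hZJ hRA hGD hNC ⟨hc, ha⟩ hH h7 hU hm).1 h⟩
  · rintro ⟨hc, h⟩
    by_cases ha : G.IsAcyclic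
    · exact (crit hSQ hZJ hRA hGD hNC ⟨hc, ha⟩ hH h7 hU hm).2 (h ha)
    · exact rigid_of_mu (rank_rigid hc ha hH (by omega) (hr.resolve_right ha)) (by omega)
        (by omega)

/-- rank `2 h + 1`, all trees -/
theorem crit_min (hSQ : S_SQ) (hZJ : S_ZJ) (hRA : S_RA) (hGD : S_GD) (hNC : S_NC) [Fintype U]
    [Fintype W] {G : SimpleGraph U} {H : SimpleGraph W} (hH : GenRigid 2 H)
    (h7 : 7 ≤ Fintype.card W) (hU : 2 ≤ Fintype.card U) (hG : G.IsTree)
    (hr : genRank 3 H = 2 * Fintype.card W + 1) :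
    GenRigid 3 (G □ H) ↔ Fintype.card W ≤ Fintype.card U + 6 ∧ Dense H := by
  constructor
  · intro h
    exact ⟨nec_size hG h (by omega) hr, hNC _ _ G H hG hU h⟩
  · rintro ⟨h1, h2⟩
    exact (crit hSQ hZJ hRA hGD hNC hG hH h7 hU (by omega)).2 ⟨hr.ge, h2⟩

/-- the number of degrees of freedom -/
theorem dof_le (hSQ : S_SQ) (hZJ : S_ZJ) (hRA : S_RA) (hGD : S_GD) [Fintype U]
    [Fintype W] {G : SimpleGraph U} {H : SimpleGraph W} (hG : G.IsTree) (hH : GenRigid 2 H)
    (h3 : 3 ≤ Fintype.card W) (hr : 2 * Fintype.card W + 1 ≤ genRank 3 H) (hD : Dense H) :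
    3 * (Fintype.card U * Fintype.card W) ≤ genRank 3 (G □ H) +
      max 6 (3 * Fintype.card W + 1 - (genRank 3 H + Fintype.card U)) := by
  have h1 := mu_rank (suff hSQ hZJ hRA hGD hG hH h3 hD hr)
  rw [Fintype.card_prod] at h1
  obtain ⟨b0⟩ := hG.connected.nonempty
  have hU : 1 ≤ Fintype.card U := Fintype.card_pos_iff.2 ⟨b0⟩
  have e : 3 * Fintype.card W - genRank 3 H + 1 - Fintype.card U ≤
      max 6 (3 * Fintype.card W + 1 - (genRank 3 H + Fintype.card U)) := by
    rcases Nat.lt_or_ge (3 * Fintype.card W) (genRank 3 H) with h | h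
    · have : 3 * Fintype.card W - genRank 3 H + 1 - Fintype.card U = 0 := by omega
      rw [this]
      exact Nat.zero_le _
    · refine le_trans (le_of_eq ?_) (le_max_right _ _)
      omega
  have e2 : max 6 (3 * Fintype.card W - genRank 3 H + 1 - Fintype.card U) ≤
      max 6 (3 * Fintype.card W + 1 - (genRank 3 H + Fintype.card U)) :=
    max_le (le_max_left _ _) e
  omega

end Pool.Agent.J4H92.TP
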