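import Pool.Agent.J4H92.TP.Pl

/-!
# Necessary conditions
-/

set_option autoImplicit false

namespace Pool.Agent.J4H92.TP

open SimpleGraph Module Pool.Agent.H283R2.DR Pool.Agent.H283R2.DR.TA Pool.Agent.J4H92.CP
  Pool.Agent.H789R5 Pool.Agent.J4H92.NC

variable {U W : Type}

/-- the first factor of a rigid product is connected -/
theorem conn_of_rigid [Fintype U] [Fintype W] {G : SimpleGraph U} {H : SimpleGraph W}
    (hU : 1 ≤ Fintype.card U) (hW : 3 ≤ Fintype.card W) (hr : GenRigid 3 (G □ H)) :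
    G.Connected := by
  classical
  obtain ⟨u0⟩ : Nonempty U := Fintype.card_pos_iff.1 hU
  obtain ⟨x0⟩ : Nonempty W := Fintype.card_pos_iff.1 (by omega)
  obtain ⟨p, hp⟩ := exists_mg (U × W) 3
  have hcard : 3 ≤ Fintype.card (U × W) := by
    rw [Fintype.card_prod]
    nlinarith
  have h1 := (genRigid_iff hp hcard _).1 hr
  norm_num at h1
  have h6 := Pool.Agent.TH349.Rig.six_le hp hcard (⊤ : SimpleGraph (U × W))
  have hle : Mot (⊤ : SimpleGraph (U × W)) p ≤ Mot (G □ H) p := by
    intro m hm
    rw [mem_mot] at hm ⊢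
    intro z z' hz
    exact hm z z' hz.ne
  have heq : Mot (⊤ : SimpleGraph (U × W)) p = Mot (G □ H) p := by
    refine Submodule.eq_of_le_of_finrank_le hle ?_
    have e1 : finrank ℝ (Mot (G □ H) p) = mo (G □ H) p := rfl
    have e2 : finrank ℝ (Mot (⊤ : SimpleGraph (U × W)) p) =
      mo (⊤ : SimpleGraph (U × W)) p := rfl
    omega
  have : Nonempty U := ⟨u0⟩
  refine ⟨fun a b => ?_⟩
  by_contra hab
  have hne : (a, x0) ≠ (b, x0) := by
    intro h
    have h' : a = b := congrArg Prod.fst h
    exact hab (h' ▸ Reachable.refl a)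
  have hpne := Pool.Agent.N423.DE.p_ne hp (by norm_num) hne
  obtain ⟨i, hi⟩ : ∃ i, p (a, x0) i ≠ p (b, x0) i := by
    by_contra hcon
    push Not at hcon
    exact hpne (funext hcon)
  set m : U × W → Fin 3 → ℝ := fun z => if G.Reachable a z.1 then Pi.single i 1 else 0 with hm
  have hmem : m ∈ Mot (G □ H) p := by
    rw [mem_mot]
    rintro ⟨u, x⟩ ⟨v, y⟩ h
    have e : m (u, x) = m (v, y) := by
      rcases h with ⟨h, -⟩ | ⟨-, h⟩
      · have h : G.Adj u v := h
        have hiff : G.Reachable a u ↔ G.Reachable a v :=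
          ⟨fun h5 => h5.trans h.reachable, fun h5 => h5.trans h.symm.reachable⟩
        show (if G.Reachable a u then (Pi.single i 1 : Fin 3 → ℝ) else 0) =
          if G.Reachable a v then Pi.single i 1 else 0
        by_cases h5 : G.Reachable a u
        · rw [if_pos h5, if_pos (hiff.1 h5)]
        · rw [if_neg h5, if_neg (fun h7 => h5 (hiff.2 h7))]
      · have h : u = v := h
        rw [h]
    rw [e, sub_self, dotProduct_zero]
  rw [← heq, mem_mot] at hmem
  have h5 := hmem (a, x0) (b, x0) hne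
  have e1 : m (a, x0) = Pi.single i 1 := if_pos (Reachable.refl a)
  have e2 : m (b, x0) = 0 := if_neg hab
  rw [e1, e2, sub_zero, dotProduct_single, mul_one, Pi.sub_apply, sub_eq_zero] at h5
  exact hi h5

/-- the number of edges of a rigid product with a tree -/
theorem nec_count [Fintype U] [Fintype W] {G : SimpleGraph U} {H : SimpleGraph W} (hG : G.IsTree)
    (hr : GenRigid 3 (G □ H)) (hW : 3 ≤ Fintype.card W) :
    Fintype.card U * (3 * Fintype.card W - genRank 3 H) + Fintype.card W ≤
      6 + Fintype.card U * Fintype.card W := by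
  classical
  obtain ⟨b0⟩ := hG.connected.nonempty
  have hU : 1 ≤ Fintype.card U := Fintype.card_pos_iff.2 ⟨b0⟩
  obtain ⟨p, hp⟩ := exists_mg (U × W) 3
  have hcard : 3 ≤ Fintype.card (U × W) := by
    rw [Fintype.card_prod]
    nlinarith
  have h1 := (genRigid_iff hp hcard _).1 hr
  norm_num at h1
  have h2 := layers_le (H := H) p
  have h3 := mo_le_add (G := (⊥ : SimpleGraph U) □ H) (G' := G □ H) p
  have h4 : ((G □ H).edgeSet \ ((⊥ : SimpleGraph U) □ H).edgeSet).ncard ≤
      (G □ (⊥ : SimpleGraph W)).edgeSet.ncard := by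
    refine Set.ncard_le_ncard ?_ (Set.toFinite _)
    intro e he
    induction e using Sym2.ind with | _ v w => ?_
    obtain ⟨h5, h6⟩ := he
    rw [mem_edgeSet] at h5 h6 ⊢
    rcases h5 with h5 | h5
    · exact Or.inl h5
    · exact absurd (Or.inr h5) h6
  rw [ncard_boxProd] at h4
  simp only [edgeSet_bot, Set.ncard_empty, mul_zero] at h4
  have he : G.edgeSet.ncard + 1 = Fintype.card U := by
    rw [Set.ncard_eq_toFinset_card']
    exact hG.card_edgeFinset
  obtain ⟨n, hn⟩ : ∃ n, Fintype.card U = n + 1 := ⟨Fintype.card U - 1, by omega⟩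
  have hn' : G.edgeSet.ncard = n := by omega
  rw [hn'] at h4
  have e1 : Fintype.card U * Fintype.card W = n * Fintype.card W + Fintype.card W := by
    rw [hn]
    ring
  omega

/-- rank `2 h + 1`: the number of vertices of the tree -/
theorem nec_size [Fintype U] [Fintype W] {G : SimpleGraph U} {H : SimpleGraph W} (hG : G.IsTree)
    (hr : GenRigid 3 (G □ H)) (hW : 3 ≤ Fintype.card W)
    (hr1 : genRank 3 H = 2 * Fintype.card W + 1) : Fintype.card W ≤ Fintype.card U + 6 := by
  have h1 := nec_count hG hr hW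
  obtain ⟨b0⟩ := hG.connected.nonempty
  have hU : 1 ≤ Fintype.card U := Fintype.card_pos_iff.2 ⟨b0⟩
  rw [hr1] at h1
  have e1 : 3 * Fintype.card W - (2 * Fintype.card W + 1) = Fintype.card W - 1 := by omega
  rw [e1] at h1
  obtain ⟨h, hh⟩ : ∃ h, Fintype.card W = h + 1 := ⟨Fintype.card W - 1, by omega⟩
  rw [hh, Nat.add_sub_cancel] at h1
  rw [hh]
  have e2 : Fintype.card U * (h + 1) = Fintype.card U * h + Fintype.card U := by ring
  omega

end Pool.Agent.J4H92.TP
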