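import Pool.Agent.J4H92.TP.Tr
import Pool.Agent.J4H92.NC.Conv
import Pool.Agent.J4H92.NC.Grow

/-!
# The placement and the assembly
-/

set_option autoImplicit false

namespace Pool.Agent.J4H92.TP

open SimpleGraph Module Pool.Agent.H283R2.DR Pool.Agent.H283R2.DR.TA Pool.Agent.J4H92.CP
  Pool.Agent.H789R5 Pool.Agent.J4H92.NC

variable {U W : Type}

/-- the system of the motions that vanish outside `J` -/
noncomputable def LJ (H : SimpleGraph W) (J : Set W) : (W → Fin 3 → ℝ) →ₗ[ℝ]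
    (Vn J) →ₗ[ℝ] ((W → W → ℝ) × (W → Fin 0 → ℝ)) :=
  (LinearMap.lcomp ℝ ((W → W → ℝ) × (W → Fin 0 → ℝ)) (Vn J).subtype).comp
    ((cm H 0).comp (Lp (fun v : W => v)))

theorem ker_LJ (H : SimpleGraph W) (J : Set W) (p : W → Fin 3 → ℝ) :
    (LinearMap.ker (LJ H J p)).map (Vn J).subtype = Zs H p J := by
  ext m
  rw [Submodule.mem_map]
  constructor
  · rintro ⟨m', hm', rfl⟩
    have h1 : (m' : W → Fin 3 → ℝ) ∈ LinearMap.ker (cm H 0 (df p, 0)) := hm'
    rw [ker_cm] at h1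
    exact ⟨h1.1, m'.2⟩
  · intro hm
    refine ⟨⟨m, hm.2⟩, ?_, rfl⟩
    have h1 : m ∈ LinearMap.ker (cm H 0 (df p, (0 : W → Fin 0 → Fin 3 → ℝ))) := by
      rw [ker_cm]
      exact ⟨hm.1, fun v i => i.elim0⟩
    exact h1

theorem good_Zs [Finite W] (H : SimpleGraph W) (J : Set W) (k : ℕ) :
    Good (fun p : W → Fin 3 → ℝ => finrank ℝ (Zs H p J) ≤ k) := by
  have h := good_ker (LJ H J) k
  have e : (fun p : W → Fin 3 → ℝ => finrank ℝ (Zs H p J) ≤ k) =
      fun p => finrank ℝ (LinearMap.ker (LJ H J p)) ≤ k := by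
    funext p
    rw [← ker_LJ, Submodule.finrank_map_subtype_eq]
  rw [e]
  exact h

theorem zs_univ_eq (H : SimpleGraph W) (p : W → Fin 3 → ℝ) :
    Zs H p Set.univ = Mot H p := by
  ext m
  rw [mem_mot]
  exact ⟨fun h => h.1, fun h => ⟨h, fun x hx => absurd (Set.mem_univ x) hx⟩⟩

/-- the placement -/
theorem exists_pl (hSQ : S_SQ) (hZJ : S_ZJ) [Fintype W] {H : SimpleGraph W} (hH : GenRigid 2 H)
    (h3 : 3 ≤ Fintype.card W) (hD : Dense H) (hr : 2 * Fintype.card W + 1 ≤ genRank 3 H) :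
    ∃ p : W → Fin 3 → ℝ, finrank ℝ (Zs H p Set.univ) ≤ 3 * Fintype.card W - genRank 3 H ∧
      (∀ J : Set W, J.Nonempty → finrank ℝ (Zs H p J) + 1 ≤ J.ncard) ∧
      finrank ℝ (Sol (Sq H) (df p) (0 : W → Fin 0 → Fin 3 → ℝ)) ≤ 6 := by
  classical
  obtain ⟨p0, hp0⟩ := exists_mg W 3
  have hr0 := genRank_add hp0 H
  have hmo : finrank ℝ (Zs H p0 Set.univ) = mo H p0 := by
    rw [zs_univ_eq]
    rfl
  let P : Option (Option (Set W)) → (W → Fin 3 → ℝ) → Prop := fun o p => match o with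
    | none => finrank ℝ (Sol (Sq H) (df p) (0 : W → Fin 0 → Fin 3 → ℝ)) ≤ 6
    | some none => finrank ℝ (Zs H p Set.univ) ≤ 3 * Fintype.card W - genRank 3 H
    | some (some J) => finrank ℝ (Zs H p J) ≤ J.ncard - 1
  obtain ⟨p, hp⟩ := good_family P (by
    rintro (_ | _ | J)
    · exact good_sol (Sq H) (Lp (fun v : W => v)) 6
    · exact good_Zs H _ _
    · exact good_Zs H _ _) (by
    rintro (_ | _ | J)
    · obtain ⟨p, d, h⟩ := hSQ W H h3 hH
      have hd : d = 0 := Subsingleton.elim _ _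
      rw [hd] at h
      exact ⟨p, h⟩
    · refine ⟨p0, ?_⟩
      show finrank ℝ (Zs H p0 Set.univ) ≤ 3 * Fintype.card W - genRank 3 H
      omega
    · by_cases hJ0 : J = ∅
      · subst hJ0
        refine ⟨p0, ?_⟩
        show finrank ℝ (Zs H p0 ∅) ≤ (∅ : Set W).ncard - 1
        have hbot : Zs H p0 ∅ = ⊥ := by
          rw [eq_bot_iff]
          intro m hm
          rw [Submodule.mem_bot]
          funext x
          exact hm.2 x (Set.notMem_empty x)
        rw [hbot, finrank_bot]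
        exact Nat.zero_le _
      have hJn : J.Nonempty := Set.nonempty_iff_ne_empty.2 hJ0
      by_cases hJ2 : J.ncard + 2 ≤ Fintype.card W
      · obtain ⟨p, hp⟩ := hZJ W H J hH hJn hJ2 (hD J hJn hJ2)
        refine ⟨p, ?_⟩
        show finrank ℝ (Zs H p J) ≤ J.ncard - 1
        omega
      · refine ⟨p0, ?_⟩
        show finrank ℝ (Zs H p0 J) ≤ J.ncard - 1
        by_cases hJu : J = Set.univ
        · rw [hJu, Set.ncard_univ, Nat.card_eq_fintype_card]
          omega
        · obtain ⟨x, hx⟩ := (Set.ne_univ_iff_exists_notMem _).1 hJu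
          have hlt : Zs H p0 J < Zs H p0 Set.univ := by
            refine lt_of_le_of_ne (fun m hm => ⟨hm.1, fun x hx => absurd (Set.mem_univ x) hx⟩) ?_
            intro he
            have h5 : (fun _ => Pi.single 0 1 : W → Fin 3 → ℝ) ∈ Zs H p0 Set.univ :=
              ⟨fun u v _ => by simp, fun x hx => absurd (Set.mem_univ x) hx⟩
            rw [← he] at h5
            have h6 := h5.2 x hx
            have h7 := congrFun h6 0
            simp at h7
          have h8 := Submodule.finrank_lt_finrank_of_lt hlt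
          omega)
  refine ⟨p, hp (some none), fun J hJ => ?_, hp none⟩
  have h5 : finrank ℝ (Zs H p J) ≤ J.ncard - 1 := hp (some (some J))
  have h6 := (Set.ncard_pos (Set.toFinite J)).2 hJ
  omega

/-- **Sufficiency.** -/
theorem suff (hSQ : S_SQ) (hZJ : S_ZJ) (hRA : S_RA) (hGD : S_GD) [Fintype U] [Fintype W]
    {G : SimpleGraph U} {H : SimpleGraph W} (hG : G.IsTree) (hH : GenRigid 2 H)
    (h3 : 3 ≤ Fintype.card W) (hD : Dense H) (hr : 2 * Fintype.card W + 1 ≤ genRank 3 H) :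
    Mu 0 (max 6 (3 * Fintype.card W - genRank 3 H + 1 - Fintype.card U)) (G □ H) := by
  classical
  obtain ⟨p, h1, h2, h4⟩ := exists_pl hSQ hZJ hH h3 hD hr
  obtain ⟨e, he⟩ := hRA W (Zs H p Set.univ) (fun J hJ => by
    have h5 : (Zs H p Set.univ ⊓ Vn J : Submodule ℝ (W → Fin 3 → ℝ)) = Zs H p J := by
      ext m
      exact ⟨fun h => ⟨h.1.1, h.2⟩, fun h => ⟨⟨h.1, fun x hx => absurd (Set.mem_univ x) hx⟩, h.2⟩⟩
    rw [h5]
    exact h2 J hJ)
  obtain ⟨i0⟩ : Nonempty W := Fintype.card_pos_iff.1 (by omega)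
  refine t_TR U W G H p _ (Sol (Sq H) (df p) (0 : W → Fin 0 → Fin 3 → ℝ)) hG h4 h1
    ⟨e, fun z hz hz0 => he i0 z hz fun j _ => hz0 j⟩ fun x hx hxT => ?_
  refine hGD W H p e x he hx ?_
  by_contra hno
  push Not at hno
  refine hxT ⟨fun u v huv => ?_, fun v i => i.elim0⟩
  rcases huv with ⟨-, h5 | ⟨w, h5, h6⟩⟩
  · exact hx.1 u v h5
  · exact hno w u v h5 h6

/-- a rigid product with a tree -/
theorem nec_rank [Fintype U] [Fintype W] {G : SimpleGraph U} {H : SimpleGraph W} (hG : G.IsTree)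
    (hr : GenRigid 3 (G □ H)) (hW : 7 ≤ Fintype.card W) :
    2 * Fintype.card W + 1 ≤ genRank 3 H := by
  classical
  obtain ⟨b0⟩ := hG.connected.nonempty
  have hU : 1 ≤ Fintype.card U := Fintype.card_pos_iff.2 ⟨b0⟩
  obtain ⟨p, hp⟩ := exists_mg (U × W) 3
  have hcard : 3 ≤ Fintype.card (U × W) := by
    rw [Fintype.card_prod]
    nlinarith
  have h1 := (genRigid_iff hp hcard _).1 hr
  norm_num at h1
  have h2 := layers_le (H := H) p
  have h3 := mo_le_add (G := (⊥ : SimpleGraph U) □ H) (G' := G □ H) p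
  have h4 : ((G □ H).edgeSet \ ((⊥ : SimpleGraph U) □ H).edgeSet).ncard ≤
      (G □ (⊥ : SimpleGraph W)).edgeSet.ncard := by
    refine Set.ncard_le_ncard ?_ (Set.toFinite _)
    intro e he
    induction e using Sym2.ind with | _ v w => ?_
    obtain ⟨h5, h6⟩ := he
    rw [mem_edgeSet] at h5 h6 ⊢
    rcases h5 with h5 | h5
    · exact Or.inl h5
    · exact absurd (Or.inr h5) h6
  rw [ncard_boxProd] at h4
  simp only [edgeSet_bot, Set.ncard_empty, mul_zero] at h4
  have he : G.edgeSet.ncard + 1 = Fintype.card U := by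
    rw [Set.ncard_eq_toFinset_card']
    exact hG.card_edgeFinset
  by_contra hcon
  push Not at hcon
  have h5 : Fintype.card U * Fintype.card W ≤
      Fintype.card U * (3 * Fintype.card W - genRank 3 H) :=
    Nat.mul_le_mul_left _ (by omega)
  obtain ⟨n, hn⟩ : ∃ n, Fintype.card U = n + 1 := ⟨Fintype.card U - 1, by omega⟩
  have hn' : G.edgeSet.ncard = n := by omega
  rw [hn'] at h4
  rw [hn] at h2 h5
  have e1 : (n + 1) * Fintype.card W = n * Fintype.card W + Fintype.card W := by ring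
  omega

/-- **The criterion.** -/
theorem crit (hSQ : S_SQ) (hZJ : S_ZJ) (hRA : S_RA) (hGD : S_GD) (hNC : S_NC) [Fintype U]
    [Fintype W] {G : SimpleGraph U} {H : SimpleGraph W} (hG : G.IsTree) (hH : GenRigid 2 H)
    (h7 : 7 ≤ Fintype.card W) (hU : 2 ≤ Fintype.card U)
    (hm : 3 * Fintype.card W ≤ genRank 3 H + Fintype.card U + 5) :
    GenRigid 3 (G □ H) ↔ 2 * Fintype.card W + 1 ≤ genRank 3 H ∧ Dense H := by
  constructor
  · intro h
    exact ⟨nec_rank hG h h7, hNC U W G H hG hU h⟩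
  · rintro ⟨hr, hD⟩
    have h1 := suff hSQ hZJ hRA hGD (G := G) hG hH (by omega) hD hr
    rw [max_eq_left (by omega)] at h1
    exact rigid_of_mu h1 (by omega) (by omega)

end Pool.Agent.J4H92.TP
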