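import Pool.Agent.J4H92.NC.Sel
import Pool.Agent.J4H92.NC.Fin1

/-!
# Products of trees with plane-rigid graphs: statements
-/

set_option autoImplicit false

namespace Pool.Agent.J4H92.TP

open SimpleGraph Module Pool.Agent.H283R2.DR Pool.Agent.H283R2.DR.TA Pool.Agent.J4H92.CP
  Pool.Agent.H789R5

/-- the motions of `H` at `p` that vanish outside `J` -/
def Zs {W : Type} (H : SimpleGraph W) (p : W → Fin 3 → ℝ) (J : Set W) :
    Submodule ℝ (W → Fin 3 → ℝ) where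
  carrier := {m | (∀ u v, H.Adj u v → (p u - p v) ⬝ᵥ (m u - m v) = 0) ∧ ∀ x, x ∉ J → m x = 0}
  zero_mem' := by simp
  add_mem' := by
    rintro m m' ⟨h1, h2⟩ ⟨h1', h2'⟩
    refine ⟨fun u v huv => ?_, fun x hx => ?_⟩
    · have : (m + m') u - (m + m') v = (m u - m v) + (m' u - m' v) := by
        simp only [Pi.add_apply]; abel
      rw [this, dotProduct_add, h1 u v huv, h1' u v huv, add_zero]
    · rw [Pi.add_apply, h2 x hx, h2' x hx, add_zero]
  smul_mem' := by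
    rintro c m ⟨h1, h2⟩
    refine ⟨fun u v huv => ?_, fun x hx => ?_⟩
    · have : (c • m) u - (c • m) v = c • (m u - m v) := by
        simp only [Pi.smul_apply, smul_sub]
      rw [this, dotProduct_smul, h1 u v huv, smul_zero]
    · rw [Pi.smul_apply, h2 x hx, smul_zero]

/-- the functions that vanish outside `J` -/
def Vn {W : Type} (J : Set W) : Submodule ℝ (W → Fin 3 → ℝ) where
  carrier := {m | ∀ x, x ∉ J → m x = 0}
  zero_mem' := by simp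
  add_mem' := by
    intro m m' h h' x hx
    rw [Pi.add_apply, h x hx, h' x hx, add_zero]
  smul_mem' := by
    intro c m h x hx
    rw [Pi.smul_apply, h x hx, smul_zero]

/-- the square of a graph -/
def Sq {W : Type} (H : SimpleGraph W) : SimpleGraph W where
  Adj u v := u ≠ v ∧ (H.Adj u v ∨ ∃ w, H.Adj w u ∧ H.Adj w v)
  symm := ⟨by
    rintro u v ⟨h, h1 | ⟨w, h1, h2⟩⟩
    · exact ⟨h.symm, Or.inl h1.symm⟩
    · exact ⟨h.symm, Or.inr ⟨w, h2, h1⟩⟩⟩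
  loopless := ⟨fun _ h => h.1 rfl⟩

/-- every nonempty set `J` of at most `h - 2` vertices meets at least `2 |J| + 1` edges -/
def Dense {W : Type} [Fintype W] (H : SimpleGraph W) : Prop :=
  ∀ J : Set W, J.Nonempty → J.ncard + 2 ≤ Fintype.card W →
    2 * J.ncard + 1 ≤ {e ∈ H.edgeSet | ∃ x ∈ J, x ∈ e}.ncard

/-- `e` is good for `Z`: each `z` in `Z` with all components zero is zero. -/
def Gd {W : Type} (Z : Submodule ℝ (W → Fin 3 → ℝ)) (e : W → Fin 3 → ℝ) : Prop :=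
  ∀ z ∈ Z, (∀ j, e j ⬝ᵥ z j = 0) → z = 0

/-- the motion `x` is obstructed by `e` -/
def Ob {W : Type} (H : SimpleGraph W) (p e x : W → Fin 3 → ℝ) : Prop :=
  ¬ ∃ y : W → Fin 3 → ℝ, (∀ j, e j ⬝ᵥ y j = 0) ∧
    ∀ u v, H.Adj u v → (p u - p v) ⬝ᵥ (y u - y v) + (e u - e v) ⬝ᵥ (x u - x v) = 0

/-- (SQ) the square of a plane-rigid graph is rigid in space -/
def S_SQ : Prop := ∀ (W : Type) [Fintype W] (H : SimpleGraph W), 3 ≤ Fintype.card W →
  GenRigid 2 H → Mu 0 6 (Sq H)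

/-- (ZJ) a placement for one set `J` -/
def S_ZJ : Prop := ∀ (W : Type) [Fintype W] (H : SimpleGraph W) (J : Set W), GenRigid 2 H →
  J.Nonempty → J.ncard + 2 ≤ Fintype.card W →
  2 * J.ncard + 1 ≤ {e ∈ H.edgeSet | ∃ x ∈ J, x ∈ e}.ncard →
  ∃ p : W → Fin 3 → ℝ, finrank ℝ (Zs H p J) + 1 ≤ J.ncard

/-- (RA) selection of directions (Rado) -/
def S_RA : Prop := ∀ (W : Type) [Fintype W] (Z : Submodule ℝ (W → Fin 3 → ℝ)),
  (∀ J : Set W, J.Nonempty → finrank ℝ (Z ⊓ Vn J : Submodule ℝ (W → Fin 3 → ℝ)) + 1 ≤ J.ncard) →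
  ∃ e : W → Fin 3 → ℝ, ∀ i, ∀ z ∈ Z, (∀ j, j ≠ i → e j ⬝ᵥ z j = 0) → z = 0

/-- (GD) a motion that does not preserve the distance of two neighbours of a vertex is obstructed -/
def S_GD : Prop := ∀ (W : Type) [Fintype W] (H : SimpleGraph W) (p e x : W → Fin 3 → ℝ),
  (∀ i, ∀ z ∈ Zs H p Set.univ, (∀ j, j ≠ i → e j ⬝ᵥ z j = 0) → z = 0) →
  x ∈ Zs H p Set.univ →
  (∃ i j k, H.Adj i j ∧ H.Adj i k ∧ (p j - p k) ⬝ᵥ (x j - x k) ≠ 0) →
  ∃ e' : W → Fin 3 → ℝ, Gd (Zs H p Set.univ) e' ∧ Ob H p e' x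

/-- (TR) trees: all layers near one placement -/
def S_TR : Prop := ∀ (U W : Type) [Fintype U] [Fintype W] (G : SimpleGraph U)
  (H : SimpleGraph W) (p : W → Fin 3 → ℝ) (k : ℕ) (T : Submodule ℝ (W → Fin 3 → ℝ)),
  G.IsTree → finrank ℝ T ≤ 6 → finrank ℝ (Zs H p Set.univ) ≤ k →
  (∃ e, Gd (Zs H p Set.univ) e) →
  (∀ x ∈ Zs H p Set.univ, x ∉ T → ∃ e, Gd (Zs H p Set.univ) e ∧ Ob H p e x) →
  Mu 0 (max 6 (k + 1 - Fintype.card U)) (G □ H)

/-- (NC) necessity -/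
def S_NC : Prop := ∀ (U W : Type) [Fintype U] [Fintype W] (G : SimpleGraph U)
  (H : SimpleGraph W), G.IsTree → 2 ≤ Fintype.card U → GenRigid 3 (G □ H) → Dense H

end Pool.Agent.J4H92.TP
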