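import Pool.Agent.J4H92.TP.Stm
import Pool.Agent.J4H92.NC.Ker

/-!
# Trees: all layers near one placement
-/

set_option autoImplicit false

namespace Pool.Agent.J4H92.TP

open SimpleGraph Module Pool.Agent.H283R2.DR Pool.Agent.H283R2.DR.TA Pool.Agent.J4H92.CP
  Pool.Agent.H789R5 Pool.Agent.J4H92.NC

variable {U W : Type}

/-- unknowns -/
abbrev XT (U W : Type) : Type := (W → Fin 3 → ℝ) × (U → W → Fin 3 → ℝ)

/-- equations -/
abbrev YT (U W : Type) : Type :=
  (W → W → ℝ) × (W → Fin 3 → ℝ) × (U → W → W → ℝ) × (U → U → W → ℝ)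

/-- the limit system -/
noncomputable def A0 (G : SimpleGraph U) (H : SimpleGraph W) (p : W → Fin 3 → ℝ) (b : U)
    (c : U → W → Fin 3 → ℝ) : XT U W →ₗ[ℝ] YT U W where
  toFun m := (fun v w => ad H v w * ((p v - p w) ⬝ᵥ (m.1 v - m.1 w)),
    fun v => m.2 b v,
    fun u v w => ad H v w * ((p v - p w) ⬝ᵥ (m.2 u v - m.2 u w) +
      (c u v - c u w) ⬝ᵥ (m.1 v - m.1 w)),
    fun u u' v => ad G u u' * ((c u v - c u' v) ⬝ᵥ (m.2 u v - m.2 u' v)))
  map_add' m m' := by
    refine Prod.ext ?_ (Prod.ext ?_ (Prod.ext ?_ ?_))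
    · funext v w
      simp only [dt_eq, dt, Prod.fst_add, Pi.add_apply, Pi.sub_apply]
      ring
    · funext v i
      simp
    · funext u v w
      simp only [dt_eq, dt, Prod.fst_add, Prod.snd_add, Pi.add_apply, Pi.sub_apply]
      ring
    · funext u u' v
      simp only [dt_eq, dt, Prod.snd_add, Pi.add_apply, Pi.sub_apply]
      ring
  map_smul' a m := by
    refine Prod.ext ?_ (Prod.ext ?_ (Prod.ext ?_ ?_))
    · funext v w
      simp only [dt_eq, dt, Prod.smul_fst, Pi.smul_apply, Pi.sub_apply, smul_eq_mul,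
        RingHom.id_apply]
      ring
    · funext v i
      simp
    · funext u v w
      simp only [dt_eq, dt, Prod.smul_fst, Prod.smul_snd, Pi.smul_apply, Pi.sub_apply,
        smul_eq_mul, RingHom.id_apply]
      ring
    · funext u u' v
      simp only [dt_eq, dt, Prod.smul_snd, Pi.smul_apply, Pi.sub_apply, smul_eq_mul,
        RingHom.id_apply]
      ring

/-- the first order term -/
noncomputable def A1 (H : SimpleGraph W) (c : U → W → Fin 3 → ℝ) : XT U W →ₗ[ℝ] YT U W where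
  toFun m := (0, 0, fun u v w => ad H v w * ((c u v - c u w) ⬝ᵥ (m.2 u v - m.2 u w)), 0)
  map_add' m m' := by
    refine Prod.ext ?_ (Prod.ext ?_ (Prod.ext ?_ ?_))
    · simp
    · simp
    · funext u v w
      simp only [dt_eq, dt, Prod.fst_add, Prod.snd_add, Pi.add_apply, Pi.sub_apply]
      ring
    · simp
  map_smul' a m := by
    refine Prod.ext ?_ (Prod.ext ?_ (Prod.ext ?_ ?_))
    · simp
    · simp
    · funext u v w
      simp only [dt_eq, dt, Prod.smul_fst, Prod.smul_snd, Pi.smul_apply, Pi.sub_apply,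
        smul_eq_mul, RingHom.id_apply]
      ring
    · simp

theorem mem_ker_A {G : SimpleGraph U} {H : SimpleGraph W} {p : W → Fin 3 → ℝ} {b : U}
    {c : U → W → Fin 3 → ℝ} {s : ℝ} {m : XT U W} :
    m ∈ LinearMap.ker (A0 G H p b c + s • A1 H c) ↔
      (∀ v w, H.Adj v w → (p v - p w) ⬝ᵥ (m.1 v - m.1 w) = 0) ∧ (∀ v, m.2 b v = 0) ∧
      (∀ u v w, H.Adj v w → (p v - p w) ⬝ᵥ (m.2 u v - m.2 u w) +
        (c u v - c u w) ⬝ᵥ (m.1 v - m.1 w) + s * ((c u v - c u w) ⬝ᵥ (m.2 u v - m.2 u w)) = 0) ∧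
      (∀ u u' v, G.Adj u u' → (c u v - c u' v) ⬝ᵥ (m.2 u v - m.2 u' v) = 0) := by
  rw [LinearMap.mem_ker, Prod.ext_iff, Prod.ext_iff, Prod.ext_iff]
  constructor
  · rintro ⟨h1, h2, h3, h4⟩
    refine ⟨fun v w hvw => ?_, fun v => ?_, fun u v w hvw => ?_, fun u u' v huu => ?_⟩
    · have h5 : ad H v w * ((p v - p w) ⬝ᵥ (m.1 v - m.1 w)) + s * 0 = 0 :=
        congrFun (congrFun h1 v) w
      rw [ad_adj hvw] at h5
      linarith
    · have h5 : m.2 b v + s • (0 : Fin 3 → ℝ) = 0 := congrFun h2 v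
      rw [smul_zero, add_zero] at h5
      exact h5
    · have h5 : ad H v w * ((p v - p w) ⬝ᵥ (m.2 u v - m.2 u w) +
        (c u v - c u w) ⬝ᵥ (m.1 v - m.1 w)) +
          s * (ad H v w * ((c u v - c u w) ⬝ᵥ (m.2 u v - m.2 u w))) = 0 :=
        congrFun (congrFun (congrFun h3 u) v) w
      rw [ad_adj hvw] at h5
      linarith
    · have h5 : ad G u u' * ((c u v - c u' v) ⬝ᵥ (m.2 u v - m.2 u' v)) + s * 0 = 0 :=
        congrFun (congrFun (congrFun h4 u) u') v
      rw [ad_adj huu] at h5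
      linarith
  · rintro ⟨h1, h2, h3, h4⟩
    refine ⟨?_, ?_, ?_, ?_⟩
    · funext v w
      show ad H v w * ((p v - p w) ⬝ᵥ (m.1 v - m.1 w)) + s * 0 = 0
      by_cases h : H.Adj v w
      · rw [h1 v w h]
        ring
      · simp [ad, h]
    · funext v
      show m.2 b v + s • (0 : Fin 3 → ℝ) = 0
      rw [smul_zero, add_zero, h2]
    · funext u v w
      show ad H v w * ((p v - p w) ⬝ᵥ (m.2 u v - m.2 u w) +
        (c u v - c u w) ⬝ᵥ (m.1 v - m.1 w)) +
          s * (ad H v w * ((c u v - c u w) ⬝ᵥ (m.2 u v - m.2 u w))) = 0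
      by_cases h : H.Adj v w
      · have := h3 u v w h
        rw [ad_adj h]
        linarith
      · simp [ad, h]
    · funext u u' v
      show ad G u u' * ((c u v - c u' v) ⬝ᵥ (m.2 u v - m.2 u' v)) + s * 0 = 0
      by_cases h : G.Adj u u'
      · rw [h4 u u' v h]
        ring
      · simp [ad, h]

/-- **The blow-up.** -/
theorem mu_of_A0 [Fintype U] [Fintype W] {G : SimpleGraph U} {H : SimpleGraph W}
    {p : W → Fin 3 → ℝ} {b : U} {c : U → W → Fin 3 → ℝ} (hc : c b = 0) {N : ℕ}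
    (h : finrank ℝ (LinearMap.ker (A0 G H p b c)) ≤ N) : Mu 0 N (G □ H) := by
  classical
  have hf := rank_good (A0 G H p b c) (A1 H c)
  obtain ⟨s, hs⟩ := (hf.union (Set.finite_singleton (0 : ℝ))).infinite_compl.nonempty
  rw [Set.mem_compl_iff, Set.mem_union, not_or, Set.mem_ofPred_eq, not_lt,
    Set.mem_singleton_iff] at hs
  obtain ⟨hs1, hs0⟩ := hs
  have k1 := LinearMap.finrank_range_add_finrank_ker (A0 G H p b c)
  have k2 := LinearMap.finrank_range_add_finrank_ker (A0 G H p b c + s • A1 H c)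
  have hker : finrank ℝ (LinearMap.ker (A0 G H p b c + s • A1 H c)) ≤ N := by omega
  set P : U × W → Fin 3 → ℝ := fun z => p z.2 + s • c z.1 z.2 with hP
  refine ⟨P, 0, le_trans ?_ hker⟩
  let F : Sol (G □ H) (df P) (0 : U × W → Fin 0 → Fin 3 → ℝ) →ₗ[ℝ] XT U W :=
    { toFun := fun m => (fun v => m.1 (b, v), fun u v => s⁻¹ • (m.1 (u, v) - m.1 (b, v)))
      map_add' := by
        intro m m'
        refine Prod.ext ?_ ?_
        · rfl
        · funext u v
          show s⁻¹ • ((m.1 + m'.1) (u, v) - (m.1 + m'.1) (b, v)) =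
            s⁻¹ • (m.1 (u, v) - m.1 (b, v)) + s⁻¹ • (m'.1 (u, v) - m'.1 (b, v))
          rw [Pi.add_apply, Pi.add_apply]
          module
      map_smul' := by
        intro a m
        refine Prod.ext ?_ ?_
        · rfl
        · funext u v
          show s⁻¹ • ((a • m.1) (u, v) - (a • m.1) (b, v)) =
            a • (s⁻¹ • (m.1 (u, v) - m.1 (b, v)))
          rw [Pi.smul_apply, Pi.smul_apply]
          module }
  have hF : ∀ m, F m ∈ LinearMap.ker (A0 G H p b c + s • A1 H c) := by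
    intro m
    have hm := (mem_sol.1 m.2).1
    have hx : ∀ v w, H.Adj v w → (p v - p w) ⬝ᵥ (m.1 (b, v) - m.1 (b, w)) = 0 := by
      intro v w hvw
      have h5 := hm (b, v) (b, w) (Or.inr ⟨hvw, rfl⟩)
      have h6 : df P (b, v) (b, w) = p v - p w := by
        show (p v + s • c b v) - (p w + s • c b w) = p v - p w
        rw [hc]
        simp
      rw [h6] at h5
      exact h5
    rw [mem_ker_A]
    refine ⟨hx, fun v => ?_, fun u v w hvw => ?_, fun u u' v huu => ?_⟩
    · show s⁻¹ • (m.1 (b, v) - m.1 (b, v)) = 0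
      rw [sub_self, smul_zero]
    · have h5 := hm (u, v) (u, w) (Or.inr ⟨hvw, rfl⟩)
      have h6 := hx v w hvw
      have h5 : ((p v + s • c u v) - (p w + s • c u w)) ⬝ᵥ (m.1 (u, v) - m.1 (u, w)) = 0 := h5
      show (p v - p w) ⬝ᵥ (s⁻¹ • (m.1 (u, v) - m.1 (b, v)) - s⁻¹ • (m.1 (u, w) - m.1 (b, w))) +
        (c u v - c u w) ⬝ᵥ (m.1 (b, v) - m.1 (b, w)) +
        s * ((c u v - c u w) ⬝ᵥ
          (s⁻¹ • (m.1 (u, v) - m.1 (b, v)) - s⁻¹ • (m.1 (u, w) - m.1 (b, w)))) = 0
      simp only [dt_eq, dt, Pi.add_apply, Pi.sub_apply, Pi.smul_apply, smul_eq_mul] at h5 h6 ⊢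
      field_simp
      linarith
    · have h5 := hm (u, v) (u', v) (Or.inl ⟨huu, rfl⟩)
      have h5 : ((p v + s • c u v) - (p v + s • c u' v)) ⬝ᵥ (m.1 (u, v) - m.1 (u', v)) = 0 := h5
      show (c u v - c u' v) ⬝ᵥ (s⁻¹ • (m.1 (u, v) - m.1 (b, v)) -
        s⁻¹ • (m.1 (u', v) - m.1 (b, v))) = 0
      have e1 : (p v + s • c u v) - (p v + s • c u' v) = s • (c u v - c u' v) := by module
      have e2 : s⁻¹ • (m.1 (u, v) - m.1 (b, v)) - s⁻¹ • (m.1 (u', v) - m.1 (b, v)) =
        s⁻¹ • (m.1 (u, v) - m.1 (u', v)) := by module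
      rw [e1, smul_dotProduct, smul_eq_mul, mul_eq_zero] at h5
      rw [e2, dotProduct_smul, h5.resolve_left hs0, smul_zero]
  have hinj : Function.Injective (F.codRestrict _ hF) := by
    rw [injective_iff_map_eq_zero]
    intro m hm
    have hm : F m = 0 := congrArg Subtype.val hm
    refine Subtype.ext ?_
    funext z
    obtain ⟨u, v⟩ := z
    have h5 : m.1 (b, v) = 0 := congrFun (congrArg Prod.fst hm) v
    have h6 : s⁻¹ • (m.1 (u, v) - m.1 (b, v)) = 0 :=
      congrFun (congrFun (congrArg Prod.snd hm) u) v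
    rw [h5, sub_zero, smul_eq_zero] at h6
    exact h6.resolve_left (inv_ne_zero hs0)
  exact LinearMap.finrank_le_finrank_of_injective hinj

theorem mem_ker_A0 {G : SimpleGraph U} {H : SimpleGraph W} {p : W → Fin 3 → ℝ} {b : U}
    {c : U → W → Fin 3 → ℝ} {m : XT U W} :
    m ∈ LinearMap.ker (A0 G H p b c) ↔
      m.1 ∈ Zs H p Set.univ ∧ (∀ v, m.2 b v = 0) ∧
      (∀ u v w, H.Adj v w → (p v - p w) ⬝ᵥ (m.2 u v - m.2 u w) +
        (c u v - c u w) ⬝ᵥ (m.1 v - m.1 w) = 0) ∧
      (∀ u u' v, G.Adj u u' → (c u v - c u' v) ⬝ᵥ (m.2 u v - m.2 u' v) = 0) := by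
  have h := mem_ker_A (G := G) (H := H) (p := p) (b := b) (c := c) (s := 0) (m := m)
  rw [zero_smul, add_zero] at h
  rw [h]
  refine and_congr ⟨fun h1 => ⟨h1, fun x hx => absurd (Set.mem_univ x) hx⟩, fun h1 => h1.1⟩
    (and_congr Iff.rfl (and_congr ?_ Iff.rfl))
  refine forall_congr' fun u => forall_congr' fun v => forall_congr' fun w =>
    forall_congr' fun _ => ?_
  rw [zero_mul, add_zero]

/-- **Induction on the tree.** -/
theorem tree_ind [Fintype W] {H : SimpleGraph W} {p : W → Fin 3 → ℝ} {k : ℕ}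
    {T : Submodule ℝ (W → Fin 3 → ℝ)} (hT : finrank ℝ T ≤ 6)
    (hk : finrank ℝ (Zs H p Set.univ) ≤ k) (he : ∃ e, Gd (Zs H p Set.univ) e)
    (hob : ∀ x ∈ Zs H p Set.univ, x ∉ T → ∃ e, Gd (Zs H p Set.univ) e ∧ Ob H p e x) :
    ∀ (n : ℕ) (U : Type) [Fintype U] (G : SimpleGraph U), Fintype.card U = n → G.IsTree →
      ∃ (b : U) (c : U → W → Fin 3 → ℝ), c b = 0 ∧
        finrank ℝ (LinearMap.ker (A0 G H p b c)) ≤ max 6 (k + 1 - Fintype.card U) ∧
        ∀ m ∈ LinearMap.ker (A0 G H p b c), m.1 = 0 → m = 0 := by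
  classical
  intro n
  induction n with
  | zero =>
    intro U _ G hU hG
    obtain ⟨b⟩ := hG.connected.nonempty
    exact absurd hU (Fintype.card_pos_iff.2 ⟨b⟩).ne'
  | succ n ih =>
  intro U _ G hU hG
  obtain ⟨b0⟩ := hG.connected.nonempty
  rcases Nat.eq_zero_or_pos n with hn | hn
  · -- one vertex
    subst hn
    have hsub : Subsingleton U := Fintype.card_le_one_iff_subsingleton.1 (by omega)
    have hy : ∀ m ∈ LinearMap.ker (A0 G H p b0 0), m.2 = 0 := by
      intro m hm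
      rw [mem_ker_A0] at hm
      funext u v
      rw [Subsingleton.elim u b0]
      exact hm.2.1 v
    have hinj : ∀ m ∈ LinearMap.ker (A0 G H p b0 0), m.1 = 0 → m = 0 := by
      intro m hm h1
      exact Prod.ext h1 (hy m hm)
    refine ⟨b0, 0, rfl, ?_, hinj⟩
    let F : LinearMap.ker (A0 G H p b0 0) →ₗ[ℝ] Zs H p Set.univ :=
      { toFun := fun m => ⟨m.1.1, (mem_ker_A0.1 m.2).1⟩
        map_add' := fun _ _ => rfl
        map_smul' := fun _ _ => rfl }
    have h1 := LinearMap.finrank_le_finrank_of_injective (f := F) (by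
      rw [injective_iff_map_eq_zero]
      intro m hm
      exact Subtype.ext (hinj m.1 m.2 (congrArg Subtype.val hm)))
    omega
  · -- remove a leaf
    have hnt : Nontrivial U := Fintype.one_lt_card_iff_nontrivial.1 (by omega)
    obtain ⟨v, hv⟩ := hG.exists_vert_degree_one_of_nontrivial
    have hG' : (G.induce ({v}ᶜ : Set U)).IsTree :=
      ⟨hG.connected.induce_compl_singleton_of_degree_eq_one hv, hG.isAcyclic.induce _⟩
    rw [degree_eq_one_iff_existsUnique_adj] at hv
    obtain ⟨a, hva, huni⟩ := hv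
    have huni : ∀ u, G.Adj v u → u = a := fun u hu => huni u hu
    have hav : a ∈ ({v}ᶜ : Set U) := fun h => hva.ne' h
    have hcard : Fintype.card ({v}ᶜ : Set U) = n := by
      rw [Fintype.card_compl_set, hU, Fintype.card_unique]
      omega
    obtain ⟨b', c', hcb, hdim, hinj'⟩ := ih ({v}ᶜ : Set U) (G.induce ({v}ᶜ : Set U)) hcard hG'
    rw [hcard] at hdim
    set K' := LinearMap.ker (A0 (G.induce ({v}ᶜ : Set U)) H p b' c') with hK'
    -- the choice of the direction
    obtain ⟨e, hge, hch⟩ : ∃ e, Gd (Zs H p Set.univ) e ∧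
        (finrank ℝ K' ≤ 6 ∨ ∃ m ∈ K', Ob H p e m.1) := by
      by_cases h6 : finrank ℝ K' ≤ 6
      · obtain ⟨e, hge⟩ := he
        exact ⟨e, hge, Or.inl h6⟩
      · have hex : ∃ m ∈ K', m.1 ∉ T := by
          by_contra hno
          push Not at hno
          apply h6
          let F : K' →ₗ[ℝ] T :=
            { toFun := fun m => ⟨m.1.1, hno m.1 m.2⟩
              map_add' := fun _ _ => rfl
              map_smul' := fun _ _ => rfl }
          exact (LinearMap.finrank_le_finrank_of_injective (f := F) (by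
            rw [injective_iff_map_eq_zero]
            intro m hm
            exact Subtype.ext (hinj' m.1 m.2 (congrArg Subtype.val hm)))).trans hT
        obtain ⟨m, hm, hmT⟩ := hex
        obtain ⟨e, hge, hoe⟩ := hob m.1 (mem_ker_A0.1 hm).1 hmT
        exact ⟨e, hge, Or.inr ⟨m, hm, hoe⟩⟩
    set c : U → W → Fin 3 → ℝ := fun u => if h : u ∈ ({v}ᶜ : Set U) then c' ⟨u, h⟩ else
      c' ⟨a, hav⟩ + e with hc
    have cin : ∀ u (h : u ∈ ({v}ᶜ : Set U)), c u = c' ⟨u, h⟩ := fun u h => dif_pos h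
    have cv : c v = c' ⟨a, hav⟩ + e := dif_neg (fun h => h rfl)
    have hvne : ∀ u, u ≠ v → u ∈ ({v}ᶜ : Set U) := fun u hu h => hu h
    -- restriction
    have hres : ∀ m ∈ LinearMap.ker (A0 G H p b'.1 c),
        ((m.1, fun u : ({v}ᶜ : Set U) => m.2 u.1) : XT ({v}ᶜ : Set U) W) ∈ K' := by
      intro m hm
      obtain ⟨h1, h2, h3, h4⟩ := mem_ker_A0.1 hm
      rw [hK', mem_ker_A0]
      refine ⟨h1, h2, fun u x y hxy => ?_, fun u u' x huu => ?_⟩
      · have h5 := h3 u.1 x y hxy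
        rw [cin u.1 u.2] at h5
        exact h5
      · have h5 := h4 u.1 u'.1 x huu
        rw [cin u.1 u.2, cin u'.1 u'.2] at h5
        exact h5
    have hdiff : ∀ m ∈ LinearMap.ker (A0 G H p b'.1 c),
        (∀ j, e j ⬝ᵥ (m.2 v j - m.2 a j) = 0) ∧
        ∀ x y, H.Adj x y → (p x - p y) ⬝ᵥ ((m.2 v x - m.2 a x) - (m.2 v y - m.2 a y)) +
          (e x - e y) ⬝ᵥ (m.1 x - m.1 y) = 0 := by
      intro m hm
      obtain ⟨h1, h2, h3, h4⟩ := mem_ker_A0.1 hm
      refine ⟨fun j => ?_, fun x y hxy => ?_⟩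
      · have h5 := h4 v a j hva
        rw [cv, cin a hav, Pi.add_apply, add_sub_cancel_left] at h5
        exact h5
      · have h5 := h3 v x y hxy
        have h6 := h3 a x y hxy
        rw [cv] at h5
        rw [cin a hav] at h6
        simp only [dt_eq, dt, Pi.add_apply, Pi.sub_apply] at h5 h6 ⊢
        linarith
    have hinj : ∀ m ∈ LinearMap.ker (A0 G H p b'.1 c), m.1 = 0 → m = 0 := by
      intro m hm h0
      have h5 := hinj' _ (hres m hm) h0
      have h6 : ∀ u, u ≠ v → m.2 u = 0 := fun u hu =>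
        congrFun (congrArg Prod.snd h5) ⟨u, hvne u hu⟩
      obtain ⟨h7, h8⟩ := hdiff m hm
      rw [h6 a hva.ne'] at h7 h8
      rw [h0] at h8
      have h9 := hge (m.2 v) ⟨fun x y hxy => by
        have h10 := h8 x y hxy
        simpa using h10, fun x hx => absurd (Set.mem_univ x) hx⟩ (fun j => by
          have h10 := h7 j
          simpa using h10)
      refine Prod.ext h0 ?_
      funext u
      by_cases hu : u = v
      · rw [hu]
        exact h9
      · exact h6 u hu
    let R : LinearMap.ker (A0 G H p b'.1 c) →ₗ[ℝ] K' :=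
      { toFun := fun m => ⟨(m.1.1, fun u : ({v}ᶜ : Set U) => m.1.2 u.1), hres m.1 m.2⟩
        map_add' := fun _ _ => rfl
        map_smul' := fun _ _ => rfl }
    have hRinj : Function.Injective R := by
      rw [injective_iff_map_eq_zero]
      intro m hm
      refine Subtype.ext (hinj m.1 m.2 ?_)
      exact congrArg Prod.fst (congrArg Subtype.val hm)
    have hle := LinearMap.finrank_le_finrank_of_injective hRinj
    refine ⟨b'.1, c, ?_, ?_, hinj⟩
    · rw [cin b'.1 b'.2]
      exact hcb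
    rcases hch with h6 | ⟨m, hm, hoe⟩
    · exact le_trans hle (le_trans h6 (le_max_left _ _))
    · have hne : LinearMap.range R < ⊤ := by
        rw [lt_top_iff_ne_top]
        intro htop
        have h5 : (⟨m, hm⟩ : K') ∈ LinearMap.range R := htop ▸ Submodule.mem_top
        obtain ⟨m', hm'⟩ := h5
        have e1 : m'.1.1 = m.1 := congrArg Prod.fst (congrArg Subtype.val hm')
        obtain ⟨h7, h8⟩ := hdiff m'.1 m'.2
        rw [e1] at h8
        exact hoe ⟨fun j => m'.1.2 v j - m'.1.2 a j, h7, h8⟩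
      have h5 := Submodule.finrank_lt hne.ne
      rw [LinearMap.finrank_range_of_inj hRinj] at h5
      omega

theorem t_TR : S_TR := by
  intro U W _ _ G H p k T hG hT hk he hob
  obtain ⟨b, c, hc, hd, -⟩ := tree_ind hT hk he hob _ U G rfl hG
  exact mu_of_A0 hc hd

end Pool.Agent.J4H92.TP
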